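import Pool.Agent.R329.LitHur
import Pool.Agent.T6.H43.LS.Steps

set_option autoImplicit false

/-!
Almost all positions of the discontinuities are, at infinitely many good scales `q`, very close to
points `m θ` with small `m`.
-/

open MeasureTheory Filter Set Metric Topology

namespace Pool.Agent.T6.H43.LA

open Pool.Agent.R329.LitCodes (Step visit)

/-- the points `m θ`, `0 ≤ m ≤ N`, are well distributed for badly approximable `θ` -/
lemma cover {θ c : ℝ} (hc : 0 < c)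
    (h : ∀ n : ℕ, 1 ≤ n → c ≤ (n : ℝ) * |n * θ - (round (n * θ) : ℝ)|) (p : ℝ) (N : ℕ) (hN : 0 < N) :
    ∃ m n : ℤ, 0 ≤ m ∧ m ≤ N ∧ |p - m * θ - n| ≤ (1 / (2 * c) + 1) / (N + 1) := by
  obtain ⟨ρ, h1, h2⟩ := Real.exists_rat_abs_sub_le_and_den_le θ hN
  set b : ℕ := ρ.den with hb
  set a : ℤ := ρ.num with ha
  have hb0 : 0 < b := ρ.den_pos
  have hbr : (0 : ℝ) < b := by exact_mod_cast hb0
  have hNr : (0 : ℝ) < (N : ℝ) + 1 := by positivity
  have hcop : IsCoprime a (b : ℤ) := by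
    rw [Int.isCoprime_iff_gcd_eq_one]
    have := ρ.reduced
    rw [Nat.Coprime] at this
    rw [Int.gcd]
    simpa using this
  obtain ⟨u, v, huv⟩ := hcop
  have hρ : (ρ : ℝ) = a / b := by
    rw [ha, hb]
    exact (Rat.cast_def ρ)
  set j : ℤ := round (b * p) with hj
  set m : ℤ := (j * u) % b with hm
  have hbz : (b : ℤ) ≠ 0 := by exact_mod_cast hb0.ne'
  have hm0 : 0 ≤ m := Int.emod_nonneg _ hbz
  have hmb : m < b := Int.emod_lt_of_pos _ (by exact_mod_cast hb0)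
  have hmk : m = j * u - b * (j * u / b) := by
    rw [hm, Int.emod_def]
  set k : ℤ := j * u / b with hk
  refine ⟨m, j * v + k * a, hm0, by omega, ?_⟩
  have hbN : c * (N + 1) ≤ b := by
    have h3 := h b hb0
    have h4 : |(b : ℝ) * θ - (round (b * θ) : ℝ)| ≤ 1 / (N + 1) := by
      refine (round_le _ a).trans ?_
      have e1 : (b : ℝ) * θ - a = b * (θ - ρ) := by
        rw [hρ]; field_simp
      rw [e1, abs_mul, abs_of_pos hbr]
      calc (b : ℝ) * |θ - ρ| ≤ b * (1 / ((N + 1) * b)) := mul_le_mul_of_nonneg_left h1 hbr.le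
        _ = 1 / (N + 1) := by field_simp
    have h5 : c ≤ b * (1 / (N + 1)) := h3.trans (mul_le_mul_of_nonneg_left h4 hbr.le)
    rw [mul_one_div, le_div_iff₀ hNr] at h5
    exact h5
  have e2 : p - m * θ - ((j * v + k * a : ℤ) : ℝ) = (b * p - j) / b + m * (ρ - θ) := by
    have huv' : (u : ℝ) * a + v * b = 1 := by exact_mod_cast huv
    have hmk' : (m : ℝ) = j * u - b * k := by exact_mod_cast hmk
    rw [hρ]
    field_simp
    push_cast
    rw [hmk']
    linear_combination -(j : ℝ) * huv'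
  rw [e2]
  have h6 : |(b * p - j) / b| ≤ 1 / (2 * c) / (N + 1) := by
    rw [abs_div, abs_of_pos hbr, div_div, div_le_div_iff₀ hbr (by positivity)]
    have h7 : |(b : ℝ) * p - j| ≤ 1 / 2 := abs_sub_round _
    calc |(b : ℝ) * p - j| * (2 * c * (N + 1)) ≤ 1 / 2 * (2 * c * (N + 1)) :=
          mul_le_mul_of_nonneg_right h7 (by positivity)
      _ = c * (N + 1) := by ring
      _ ≤ b := hbN
      _ = 1 * b := (one_mul _).symm
  have h8 : |(m : ℝ) * (ρ - θ)| ≤ 1 / (N + 1) := by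
    rw [abs_mul, abs_sub_comm (ρ : ℝ) θ]
    have hm1 : |(m : ℝ)| ≤ b := by
      rw [abs_of_nonneg (by exact_mod_cast hm0)]
      exact_mod_cast hmb.le
    calc |(m : ℝ)| * |θ - ρ| ≤ b * (1 / ((N + 1) * b)) :=
          mul_le_mul hm1 h1 (abs_nonneg _) hbr.le
      _ = 1 / (N + 1) := by field_simp
  calc |(b * p - j) / b + m * (ρ - θ)| ≤ 1 / (2 * c) / (N + 1) + 1 / (N + 1) :=
        (abs_add_le _ _).trans (add_le_add h6 h8)
    _ = _ := by rw [← add_div]

/-- vectors of the form `(m_i θ + n_i)` with `|m_i| ≤ q / 200`, at good scales `q` -/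
def AS (θ : ℝ) (d q : ℕ) : Set (Fin d → ℝ) :=
  {p | (1 ≤ q ∧ (q : ℝ) * |q * θ - (round (q * θ) : ℝ)| < 23 / 50) ∧
    ∀ i, ∃ m n : ℤ, |(m : ℝ)| ≤ q / 200 ∧ p i = m * θ + n}

/-- the points of infinitely many neighbourhoods -/
def Al (θ : ℝ) (d : ℕ) (M : ℝ) : Set (Fin d → ℝ) :=
  blimsup (fun q : ℕ => cthickening (M * (1 / (q : ℝ))) (AS θ d q)) atTop (fun _ => True)

lemma Al_ae (θ : ℝ) (d : ℕ) {M : ℝ} (hM : 0 < M) : Al θ d M =ᵐ[volume] Al θ d 1 := by
  have h1 := blimsup_cthickening_mul_ae_eq (volume : Measure (Fin d → ℝ)) (fun _ => True) (AS θ d) hM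
    (fun q : ℕ => 1 / (q : ℝ)) tendsto_one_div_atTop_nhds_zero_nat
  have h2 : Al θ d 1 = (blimsup (fun q : ℕ => cthickening (1 / (q : ℝ)) (AS θ d q)) atTop
      (fun _ => True) : Set (Fin d → ℝ)) := by
    unfold Al
    simp only [one_mul]
  rw [h2]
  exact h1

lemma Al_univ {θ c : ℝ} (hθ : Irrational θ) (hc : 0 < c)
    (h : ∀ n : ℕ, 1 ≤ n → c ≤ (n : ℝ) * |n * θ - (round (n * θ) : ℝ)|) (d : ℕ) :
    Al θ d (200 * (1 / (2 * c) + 1)) = univ := by
  rw [eq_univ_iff_forall]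
  intro p
  unfold Al
  rw [blimsup_true, mem_limsup_iff_frequently_mem, frequently_atTop]
  intro Q
  obtain ⟨q, hq1, hq2, hq3⟩ := R329.LitCodes.exists_good hθ (Q + 200)
  refine ⟨q, by omega, ?_⟩
  have hqr : (0 : ℝ) < q := by exact_mod_cast hq2
  have hN : 0 < q / 200 := Nat.div_pos (by omega) (by norm_num)
  have hNr : ((q / 200 : ℕ) : ℝ) ≤ q / 200 := by
    have := Nat.cast_div_le (α := ℝ) (m := q) (n := 200)
    simpa using this
  have hNr2 : (q : ℝ) / 200 ≤ ((q / 200 : ℕ) : ℝ) + 1 := by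
    have h3 : q ≤ 200 * (q / 200 + 1) := by omega
    have h4 : (q : ℝ) ≤ 200 * (((q / 200 : ℕ) : ℝ) + 1) := by exact_mod_cast h3
    linarith
  have hc1 : 0 < 1 / (2 * c) + 1 := by positivity
  choose m n h1 h2 h3 using fun i => cover hc h (p i) (q / 200) hN
  refine mem_cthickening_of_dist_le p (fun i => (m i : ℝ) * θ + n i) _ _ ?_ ?_
  · refine ⟨⟨hq2, hq3⟩, fun i => ⟨m i, n i, ?_, rfl⟩⟩
    rw [abs_of_nonneg (by exact_mod_cast h1 i)]
    have h4 : ((m i : ℤ) : ℝ) ≤ (((q / 200 : ℕ) : ℤ) : ℝ) := Int.cast_le.2 (h2 i)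
    rw [Int.cast_natCast] at h4
    linarith
  · rw [dist_pi_le_iff (by positivity)]
    intro i
    rw [Real.dist_eq]
    have e1 : p i - (m i * θ + n i) = p i - m i * θ - n i := by ring
    rw [e1]
    refine (h3 i).trans ?_
    rw [mul_one_div, div_le_div_iff₀ (by positivity) hqr]
    nlinarith

lemma Al_full {θ c : ℝ} (hθ : Irrational θ) (hc : 0 < c)
    (h : ∀ n : ℕ, 1 ≤ n → c ≤ (n : ℝ) * |n * θ - (round (n * θ) : ℝ)|) (d : ℕ) {η : ℝ} (hη : 0 < η) :
    ∀ᵐ p : Fin d → ℝ, p ∈ Al θ d η := by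
  have h1 : Al θ d η =ᵐ[volume] (univ : Set (Fin d → ℝ)) := by
    rw [← Al_univ hθ hc h d]
    exact (Al_ae θ d hη).trans (Al_ae θ d (by positivity)).symm
  exact eventuallyEq_univ.1 h1

/-- the property of almost all positions -/
def Aligned (θ : ℝ) {d : ℕ} (p : Fin d → ℝ) : Prop :=
  ∀ N : ℕ, ∃ q : ℕ, N ≤ q ∧ 1 ≤ q ∧ (q : ℝ) * |q * θ - (round (q * θ) : ℝ)| < 23 / 50 ∧
    ∀ i, ∃ m n : ℤ, |(m : ℝ)| ≤ q / 200 ∧ |p i - m * θ - n| ≤ 1 / 100 / q

lemma aligned_ae {θ c : ℝ} (hθ : Irrational θ) (hc : 0 < c)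
    (h : ∀ n : ℕ, 1 ≤ n → c ≤ (n : ℝ) * |n * θ - (round (n * θ) : ℝ)|) (d : ℕ) :
    ∀ᵐ p : Fin d → ℝ, Aligned θ p := by
  filter_upwards [Al_full hθ hc h d (η := 1 / 200) (by norm_num)] with p hp
  intro N
  unfold Al at hp
  rw [blimsup_true, mem_limsup_iff_frequently_mem] at hp
  obtain ⟨q, hq1, hq2⟩ := (hp.and_eventually (eventually_ge_atTop (N + 1))).exists
  have hqr : (0 : ℝ) < q := by
    have : 0 < q := by omega
    exact_mod_cast this
  have h3 : 1 / 200 * (1 / (q : ℝ)) < 1 / 100 / q := by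
    rw [mul_one_div]
    apply div_lt_div_of_pos_right _ hqr
    norm_num
  have h4 := cthickening_subset_thickening' (by positivity) h3 _ hq1
  rw [mem_thickening_iff] at h4
  obtain ⟨z, ⟨⟨hz1, hz2⟩, hz3⟩, hd⟩ := h4
  refine ⟨q, by omega, hz1, hz2, fun i => ?_⟩
  obtain ⟨m, n, hm, hn⟩ := hz3 i
  refine ⟨m, n, hm, ?_⟩
  have h5 : |p i - z i| ≤ 1 / 100 / q := by
    rw [← Real.dist_eq]
    exact (dist_le_pi_dist p z i).trans hd.le
  have e1 : p i - m * θ - n = p i - z i := by rw [hn]; ring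
  rw [e1]
  exact h5

/-- blocks of matches when all discontinuities are close to the points `m θ` with `|m| ≤ J` -/
lemma aligned_block {A : Type} {θ : ℝ} (hθ : Irrational θ) {D : Finset ℝ} {F : ℝ → A} (S : Step D F)
    (q n J : ℕ) (κ : ℝ)
    (hD : ∀ d ∈ D, ∃ m l : ℤ, |m| ≤ J ∧ |d - m * θ - l| ≤ κ) (x : ℝ)
    (h : (n + 2 * J + 1 : ℝ) * (|q * θ - (round (q * θ) : ℝ)| + 2 * κ) < 1) :
    ∃ u : ℕ, ∀ k, k < n → F (x + ((u + k + q : ℕ) : ℝ) * θ) = F (x + ((u + k : ℕ) : ℝ) * θ) := by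
  classical
  set η : ℝ := q * θ - round (q * θ) with hη
  set B : Set UnitAddCircle := ⋃ j ∈ Finset.Icc (-(J : ℤ)) (n + J),
    Metric.closedBall (((-(j : ℝ) * θ - η / 2 : ℝ)) : UnitAddCircle) (|η| / 2 + κ) with hB
  have hBm : volume B < 1 := by
    have h2 : ∀ z : UnitAddCircle, volume (Metric.closedBall z (|η| / 2 + κ))
        ≤ ENNReal.ofReal (|η| + 2 * κ) := by
      intro z
      rw [AddCircle.volume_closedBall]
      refine ENNReal.ofReal_le_ofReal ?_
      rw [show 2 * (|η| / 2 + κ) = |η| + 2 * κ by ring]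
      exact min_le_right _ _
    rw [hB]
    refine lt_of_le_of_lt ((measure_biUnion_finset_le _ _).trans (Finset.sum_le_sum fun j _ =>
      h2 _)) ?_
    rw [Finset.sum_const, nsmul_eq_mul, Int.card_Icc]
    have h3 : ((n : ℤ) + J + 1 - -(J : ℤ)).toNat = n + 2 * J + 1 := by omega
    rw [h3]
    have h4 : (((n + 2 * J + 1 : ℕ) : ENNReal)) * ENNReal.ofReal (|η| + 2 * κ)
        = ENNReal.ofReal ((n + 2 * J + 1 : ℝ) * (|η| + 2 * κ)) := by
      rw [ENNReal.ofReal_mul (by positivity)]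
      congr 1
      rw [← ENNReal.ofReal_natCast]
      push_cast
      rfl
    rw [h4, ENNReal.ofReal_lt_one]
    exact h
  have hBc : IsClosed B := by
    rw [hB]
    exact (Finset.Icc (-(J : ℤ)) (n + J)).finite_toSet.isClosed_biUnion
      fun j _ => Metric.isClosed_closedBall
  have hne : (Bᶜ).Nonempty := by
    rw [Set.nonempty_compl]
    intro h0
    rw [h0, AddCircle.measure_univ, ENNReal.ofReal_one] at hBm
    exact lt_irrefl _ hBm
  obtain ⟨u, hu⟩ := visit hθ hBc.isOpen_compl hne x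
  refine ⟨u, fun k hk => ?_⟩
  set p : ℝ := x + ((u + k : ℕ) : ℝ) * θ with hp
  have e1 : x + ((u + k + q : ℕ) : ℝ) * θ = p + η + (round (q * θ) : ℤ) := by
    rw [hp, hη]
    push_cast
    ring
  rw [e1, S.per_int]
  have hno : ∀ d ∈ D, ∀ m : ℤ, |η| / 2 < |p + η / 2 - d - m| := by
    intro d hd m
    by_contra hcon
    push Not at hcon
    apply hu
    obtain ⟨m', l, hm', hl⟩ := hD d hd
    rw [abs_le] at hm'
    rw [hB]
    refine Set.mem_biUnion (x := (k : ℤ) - m') (Finset.mem_coe.2 (Finset.mem_Icc.2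
      ⟨by omega, by omega⟩)) ?_
    rw [Metric.mem_closedBall, dist_eq_norm, ← AddCircle.coe_sub, UnitAddCircle.norm_eq]
    refine (round_le _ (l + m)).trans ?_
    have e2 : x + (u : ℝ) * θ - (-(((k : ℤ) - m' : ℤ) : ℝ) * θ - η / 2) - ((l + m : ℤ) : ℝ)
        = (p + η / 2 - d - m) + (d - m' * θ - l) := by
      rw [hp]
      push_cast
      ring
    rw [e2]
    exact (abs_add_le _ _).trans (add_le_add hcon hl)
  rcases le_total 0 η with h0 | h0
  · refine (S.const p (p + η) (by linarith) ?_).symm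
    rintro d hd m ⟨h1, h2⟩
    have h3 := hno d hd m
    rw [abs_of_nonneg h0] at h3
    have h4 : |p + η / 2 - d - m| ≤ η / 2 := by
      rw [abs_le]; constructor <;> linarith
    linarith
  · refine S.const (p + η) p (by linarith) ?_
    rintro d hd m ⟨h1, h2⟩
    have h3 := hno d hd m
    rw [abs_of_nonpos h0] at h3
    have h4 : |p + η / 2 - d - m| ≤ -η / 2 := by
      rw [abs_le]; constructor <;> linarith
    linarith

end Pool.Agent.T6.H43.LA
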