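import Pool.Agent.T6.H43.LA.Align

set_option autoImplicit false

/-!
Littlewood's conjecture for all pairs coded by a rotation and a step function whose discontinuities are in
general position.
-/

open MeasureTheory Filter Set Metric Topology

namespace Pool.Agent.T6.H43.LA

open Pool.Agent.R329.LitCodes

theorem aligned_code {θ : ℝ} (hθ : Irrational θ) {d : ℕ} {p : Fin d → ℝ} (hp : Aligned θ p)
    (D : Finset ℝ) (hD : ∀ x ∈ D, ∃ i, ∃ m n : ℤ, x = p i + m * θ + n) {F : ℝ → ℤ × ℤ} (S : Step D F)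
    (y : ℝ) : CodeLC (fun k => F (y + k * θ)) := by
  obtain ⟨X, hX⟩ : ∃ X : ℝ, ∀ y, |((F y).2 : ℝ)| ≤ X := by
    obtain ⟨X, hX⟩ := ((LS.Step.finite_range S).image fun p : ℤ × ℤ => |(p.2 : ℝ)|).bddAbove
    exact ⟨X, fun y => hX ⟨F y, ⟨y, rfl⟩, rfl⟩⟩
  obtain ⟨M, hM⟩ : ∃ M : ℕ, ∀ x ∈ D, ∃ i, ∃ m n : ℤ, |m| ≤ M ∧ x = p i + m * θ + n := by
    choose i m n h using fun x : D => hD x x.2
    refine ⟨∑ x : D, (m x).natAbs, fun x hx => ⟨i ⟨x, hx⟩, m ⟨x, hx⟩, n ⟨x, hx⟩, ?_, h ⟨x, hx⟩⟩⟩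
    have h1 : (m ⟨x, hx⟩).natAbs ≤ ∑ x : D, (m x).natAbs :=
      Finset.single_le_sum (f := fun x : D => (m x).natAbs) (fun _ _ => Nat.zero_le _)
        (Finset.mem_univ _)
    rw [Int.abs_eq_natAbs]
    exact_mod_cast h1
  refine codeLC_of_blocks X (fun k => hX _) fun s => ?_
  obtain ⟨q, hqN, hq1, hq2, hq3⟩ := hp (20 * (s + 2 * M + 1))
  have hqr : (0 : ℝ) < q := by exact_mod_cast hq1
  have hqNr : (20 : ℝ) * (s + 2 * M + 1) ≤ q := by exact_mod_cast hqN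
  have hA : ∀ x ∈ D, ∃ m l : ℤ, |m| ≤ ((q / 200 + M : ℕ) : ℤ) ∧ |x - m * θ - l| ≤ 1 / 100 / q := by
    intro x hx
    obtain ⟨i, m, n, hm, rfl⟩ := hM x hx
    obtain ⟨m', n', hm', hn'⟩ := hq3 i
    refine ⟨m' + m, n' + n, ?_, ?_⟩
    · have h1 : 200 * |m'| ≤ (q : ℤ) := by
        have h2 : (200 : ℝ) * |(m' : ℝ)| ≤ q := by linarith
        exact_mod_cast h2
      have h2 := abs_add_le m' m
      push_cast
      omega
    · have e1 : p i + m * θ + n - ((m' + m : ℤ) : ℝ) * θ - ((n' + n : ℤ) : ℝ)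
          = p i - m' * θ - n' := by push_cast; ring
      rw [e1]
      exact hn'
  have hBd : (((2 * q + s : ℕ) : ℝ) + 2 * ((q / 200 + M : ℕ) : ℝ) + 1) *
      (|(q : ℝ) * θ - (round (q * θ) : ℝ)| + 2 * (1 / 100 / q)) < 1 := by
    set e : ℝ := |(q : ℝ) * θ - (round (q * θ) : ℝ)| with he
    have h200 : ((q / 200 : ℕ) : ℝ) ≤ q / 200 := by
      have := Nat.cast_div_le (α := ℝ) (m := q) (n := 200)
      simpa using this
    have h1 : (((2 * q + s : ℕ) : ℝ) + 2 * ((q / 200 + M : ℕ) : ℝ) + 1) ≤ (2 + 3 / 50) * q := by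
      push_cast
      linarith
    have h2 : e + 2 * (1 / 100 / q) ≤ (12 / 25) / q := by
      rw [le_div_iff₀ hqr]
      have h3 : (e + 2 * (1 / 100 / q)) * q = q * e + 1 / 50 := by
        field_simp
        ring
      rw [h3]
      linarith
    have h0 : 0 ≤ e + 2 * (1 / 100 / q) := by positivity
    calc (((2 * q + s : ℕ) : ℝ) + 2 * ((q / 200 + M : ℕ) : ℝ) + 1) * (e + 2 * (1 / 100 / q))
        ≤ ((2 + 3 / 50) * q) * ((12 / 25) / q) := mul_le_mul h1 h2 h0 (by positivity)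
      _ = (2 + 3 / 50) * (12 / 25) := by field_simp
      _ < 1 := by norm_num
  obtain ⟨u, hu⟩ := aligned_block hθ S q (2 * q + s) (q / 200 + M) (1 / 100 / q) hA y hBd
  refine ⟨q, u, 1, hq1, Or.inl rfl, fun k hk => ?_⟩
  have h1 := hu k hk
  simp only [tw, one_mul]
  exact h1

/-- **Generic positions.** -/
theorem generic_code {θ : ℝ} (hθ : Irrational θ) (d : ℕ) : ∀ᵐ p : Fin d → ℝ,
    ∀ D : Finset ℝ, (∀ x ∈ D, ∃ i, ∃ m n : ℤ, x = p i + m * θ + n) →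
    ∀ F : ℝ → ℤ × ℤ, Step D F → ∀ y : ℝ, CodeLC (fun k => F (y + k * θ)) := by
  by_cases hb : ∃ c : ℝ, 0 < c ∧ ∀ n : ℕ, 1 ≤ n → c ≤ (n : ℝ) * |n * θ - (round (n * θ) : ℝ)|
  · obtain ⟨c, hc, h⟩ := hb
    filter_upwards [aligned_ae hθ hc h d] with p hp
    intro D hD F S y
    exact aligned_code hθ hp D hD S y
  · push Not at hb
    refine Eventually.of_forall fun p D _ F S y => ?_
    obtain ⟨X, hX⟩ : ∃ X : ℝ, ∀ y, |((F y).2 : ℝ)| ≤ X := by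
      obtain ⟨X, hX⟩ := ((LS.Step.finite_range S).image fun p : ℤ × ℤ => |(p.2 : ℝ)|).bddAbove
      exact ⟨X, fun y => hX ⟨F y, ⟨y, rfl⟩, rfl⟩⟩
    exact rot_code_liminf hθ hb S X hX y

end Pool.Agent.T6.H43.LA
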